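import Pool.Agent.Helper6.IP.Basic

/-!
# From a sequence of observations to a pebbling: many nodes are held at some time
-/

namespace Pool.Agent.Helper96.IP

open Pool.Agent.Helper6.IP

variable {G : Dag} {A : Type} [AddCommGroup A]

/-- Nodes with all slots blocked. -/
def Full (o : ℕ → G.Cell A ⊕ A) (I : G.Cell A → A) (v : G.V) : Prop :=
  ∀ s : G.Slot, G.own s = v → Blk o I s

/-- The sequence from the time `τ` on. -/
def sh {W : Type} (o : ℕ → W) (τ : ℕ) : ℕ → W := fun m => o (m + τ)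

theorem exists_slot (v : G.V) : ∃ s : G.Slot, G.own s = v := by
  by_cases h : ∃ e, G.head e = v
  · obtain ⟨e, he⟩ := h
    exact ⟨Sum.inr e, he⟩
  · push Not at h
    exact ⟨Sum.inl ⟨v, h⟩, rfl⟩

theorem mem_HH {o : ℕ → G.Cell A ⊕ A} {I : G.Cell A → A} {v : G.V} :
    v ∈ HH o I ↔ ∃ s, G.own s = v ∧ Blk o I s := by
  simp [HH]

section

variable {o : ℕ → G.Cell A ⊕ A} {I : G.Cell A → A}

theorem Full.mem {v : G.V} (h : Full o I v) : v ∈ HH o I := by
  obtain ⟨s, hs⟩ := exists_slot v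
  exact mem_HH.2 ⟨s, hs, h s hs⟩

/-- A slot gets blocked only when its right cell is observed. -/
theorem blk_new {τ : ℕ} {s : G.Slot} (h : ¬ Blk (sh o τ) I s) (h' : Blk (sh o (τ + 1)) I s) :
    o τ = Sum.inl (rc I s) := by
  by_contra hne
  obtain ⟨m, hm, hm'⟩ := h'
  refine h ⟨m + 1, ?_, ?_⟩
  · have h1 : sh o τ (m + 1) = sh o (τ + 1) m := by
      unfold sh
      congr 1
      omega
    rw [h1]
    exact hm
  · intro j hj
    rcases j with _ | j
    · unfold sh
      rw [Nat.zero_add]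
      exact hne
    · have h1 : sh o τ (j + 1) = sh o (τ + 1) j := by
        unfold sh
        congr 1
        omega
      rw [h1]
      exact hm' j (by omega)

/-- At an observation in which the value of `u` is used the node `u` is full. -/
theorem full_of_out {τ : ℕ} {u : G.V} (h : o τ ∈ Out I u) : Full (sh o τ) I u := by
  intro s hs
  refine ⟨0, ?_, fun j hj => ?_⟩
  · unfold sh
    rw [Nat.zero_add, hs]
    exact h
  · have hj0 : j = 0 := by omega
    subst hj0
    unfold sh
    rw [Nat.zero_add]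
    intro h1
    rw [h1] at h
    exact rc_notMem_out hs h

open Classical in
/-- The nodes which have been full since they were held the last time. -/
noncomputable def Fs (o : ℕ → G.Cell A ⊕ A) (I : G.Cell A → A) : ℕ → Finset G.V
  | 0 => Finset.univ.filter (Full (sh o 0) I)
  | τ + 1 => Finset.univ.filter fun v => v ∈ HH (sh o (τ + 1)) I ∧
      (v ∈ Fs o I τ ∨ Full (sh o (τ + 1)) I v)

theorem Fs_sub {τ : ℕ} {v : G.V} (h : v ∈ Fs o I τ) : v ∈ HH (sh o τ) I := by
  classical
  rcases τ with _ | τ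
  · simp only [Fs, Finset.mem_filter] at h
    exact h.2.mem
  · simp only [Fs, Finset.mem_filter] at h
    exact h.2.1

theorem full_Fs {τ : ℕ} {v : G.V} (h : Full (sh o τ) I v) : v ∈ Fs o I τ := by
  classical
  rcases τ with _ | τ
  · simp only [Fs, Finset.mem_filter]
    exact ⟨Finset.mem_univ _, h⟩
  · simp only [Fs, Finset.mem_filter]
    exact ⟨Finset.mem_univ _, h.mem, Or.inr h⟩

open Classical in
/-- The pebbled nodes at the time `τ`. -/
noncomputable def Bs (o : ℕ → G.Cell A ⊕ A) (I : G.Cell A → A) (τ : ℕ) : Finset G.V :=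
  Fs o I τ ∪ (HH (sh o τ) I \ Fs o I τ).biUnion
    (fun v => (Finset.univ.filter fun e => G.head e = v ∧ Blk (sh o τ) I (Sum.inr e)).image G.tail)

theorem mem_Bs {τ : ℕ} {u : G.V} : u ∈ Bs o I τ ↔ u ∈ Fs o I τ ∨
    ∃ e : G.E, G.tail e = u ∧ G.head e ∉ Fs o I τ ∧ Blk (sh o τ) I (Sum.inr e) := by
  classical
  simp only [Bs, Finset.mem_union, Finset.mem_biUnion, Finset.mem_sdiff, Finset.mem_image,
    Finset.mem_filter, Finset.mem_univ, true_and]
  refine or_congr Iff.rfl ⟨?_, ?_⟩
  · rintro ⟨v, ⟨-, hv⟩, e, ⟨rfl, hb⟩, rfl⟩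
    exact ⟨e, rfl, hv, hb⟩
  · rintro ⟨e, rfl, he, hb⟩
    exact ⟨G.head e, ⟨mem_HH.2 ⟨Sum.inr e, rfl, hb⟩, he⟩, e, ⟨rfl, hb⟩, rfl⟩

theorem card_Bs {d : ℕ} (hd2 : 2 ≤ d) (hd : ∀ v, Nat.card {e // G.head e = v} ≤ d) (τ : ℕ) :
    (Bs o I τ).card ≤ (d - 1) * (HH (sh o τ) I).card := by
  classical
  have h1 : Fs o I τ ⊆ HH (sh o τ) I := fun v hv => Fs_sub hv
  have h2 : (HH (sh o τ) I \ Fs o I τ).card + (Fs o I τ).card = (HH (sh o τ) I).card :=
    Finset.card_sdiff_add_card_eq_card h1
  have h3 : ∀ v ∈ HH (sh o τ) I \ Fs o I τ,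
      ((Finset.univ.filter fun e => G.head e = v ∧
        Blk (sh o τ) I (Sum.inr e)).image G.tail).card ≤ d - 1 := by
    intro v hv
    have hv' := (Finset.mem_sdiff.1 hv).2
    have h4 : ¬ Full (sh o τ) I v := fun h => hv' (full_Fs h)
    unfold Full at h4
    push Not at h4
    obtain ⟨s, hs, hb⟩ := h4
    refine Finset.card_image_le.trans ?_
    have hc : (Finset.univ.filter fun e => G.head e = v).card ≤ d := by
      have h5 := hd v
      rw [Nat.card_eq_fintype_card, Fintype.card_subtype] at h5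
      exact h5
    rcases s with w | e
    · rw [Finset.card_eq_zero.2]
      · exact Nat.zero_le _
      · rw [Finset.filter_eq_empty_iff]
        rintro e - ⟨he, -⟩
        have h5 : w.1 = v := hs
        exact w.2 e (he.trans h5.symm)
    · have h5 : (Finset.univ.filter fun e => G.head e = v ∧ Blk (sh o τ) I (Sum.inr e)) ⊆
          (Finset.univ.filter fun e => G.head e = v).erase e := by
        intro e' he'
        obtain ⟨h6, h7⟩ := (Finset.mem_filter.1 he').2
        refine Finset.mem_erase.2 ⟨?_, Finset.mem_filter.2 ⟨Finset.mem_univ _, h6⟩⟩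
        rintro rfl
        exact hb h7
      have h6 : e ∈ Finset.univ.filter fun e => G.head e = v :=
        Finset.mem_filter.2 ⟨Finset.mem_univ _, hs⟩
      have h7 := Finset.card_le_card h5
      rw [Finset.card_erase_of_mem h6] at h7
      exact h7.trans (Nat.sub_le_sub_right hc 1)
  have h4 := Finset.card_biUnion_le_card_mul _ _ _ h3
  unfold Bs
  refine (Finset.card_union_le _ _).trans ?_
  have h5 : 1 ≤ d - 1 := by omega
  calc (Fs o I τ).card + _ ≤ (Fs o I τ).card + (HH (sh o τ) I \ Fs o I τ).card * (d - 1) :=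
        Nat.add_le_add_left h4 _
    _ ≤ (d - 1) * (Fs o I τ).card + (HH (sh o τ) I \ Fs o I τ).card * (d - 1) :=
        Nat.add_le_add_right (Nat.le_mul_of_pos_left _ h5) _
    _ = (d - 1) * (HH (sh o τ) I).card := by rw [← h2]; ring

/-- One step of the pebbling. -/
theorem peb_step {M τ : ℕ} (ih : G.Peb M (Bs o I τ)) (hM : (Bs o I τ).card + 1 ≤ M) :
    G.Peb M (Bs o I (τ + 1)) := by
  classical
  -- the new blocked edges
  have hnew : ∀ e : G.E, ¬ Blk (sh o τ) I (Sum.inr e) → Blk (sh o (τ + 1)) I (Sum.inr e) →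
      G.tail e ∈ Fs o I τ := by
    intro e h1 h2
    exact full_Fs (full_of_out (Or.inl ⟨e, rfl, blk_new h1 h2⟩))
  have htail : ∀ u, (∃ e : G.E, G.tail e = u ∧ G.head e ∉ Fs o I (τ + 1) ∧
      Blk (sh o (τ + 1)) I (Sum.inr e)) → u ∈ Bs o I τ := by
    rintro u ⟨e, rfl, he, hb⟩
    by_cases h1 : Blk (sh o τ) I (Sum.inr e)
    · refine mem_Bs.2 (Or.inr ⟨e, rfl, fun h2 => he ?_, h1⟩)
      simp only [Fs, Finset.mem_filter]
      exact ⟨Finset.mem_univ _, mem_HH.2 ⟨Sum.inr e, rfl, hb⟩, Or.inl h2⟩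
    · exact mem_Bs.2 (Or.inl (hnew e h1 hb))
  by_cases hcase : ∃ v, v ∈ Fs o I (τ + 1) ∧ v ∉ Fs o I τ
  · obtain ⟨v, hv, hv'⟩ := hcase
    have hfull : Full (sh o (τ + 1)) I v := by
      have h1 := hv
      simp only [Fs, Finset.mem_filter] at h1
      exact h1.2.2.resolve_left hv'
    have hpre : ∀ e, G.head e = v → G.tail e ∈ Bs o I τ := by
      intro e he
      have h1 := hfull (Sum.inr e) he
      by_cases h2 : Blk (sh o τ) I (Sum.inr e)
      · exact mem_Bs.2 (Or.inr ⟨e, rfl, by rw [he]; exact hv', h2⟩)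
      · exact mem_Bs.2 (Or.inl (hnew e h2 h1))
    have huniq : ∀ v', v' ∈ Fs o I (τ + 1) → v' ∉ Fs o I τ →
        ∃ s : G.Slot, G.own s = v' ∧ o τ = Sum.inl (rc I s) := by
      intro v' h1 h2
      have h3 : Full (sh o (τ + 1)) I v' := by
        have h4 := h1
        simp only [Fs, Finset.mem_filter] at h4
        exact h4.2.2.resolve_left h2
      have h4 : ¬ Full (sh o τ) I v' := fun h => h2 (full_Fs h)
      unfold Full at h4
      push Not at h4
      obtain ⟨s, hs, hb⟩ := h4
      exact ⟨s, hs, blk_new hb (h3 s hs)⟩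
    obtain ⟨s, hs, hos⟩ := huniq v hv hv'
    have hsub : Bs o I (τ + 1) ⊆ insert v (Bs o I τ) := by
      intro u hu
      rcases mem_Bs.1 hu with h1 | h1
      · by_cases h2 : u ∈ Fs o I τ
        · exact Finset.mem_insert_of_mem (mem_Bs.2 (Or.inl h2))
        · obtain ⟨s', hs', hos'⟩ := huniq u h1 h2
          have h3 : s = s' := rc_inj (Sum.inl_injective (hos.symm.trans hos'))
          rw [← hs', ← h3, hs]
          exact Finset.mem_insert_self _ _
      · exact Finset.mem_insert_of_mem (htail u h1)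
    refine Dag.Peb.remove _ _ (Dag.Peb.place _ v ih hpre ?_) hsub
    exact (Finset.card_insert_le _ _).trans hM
  · push Not at hcase
    refine Dag.Peb.remove _ _ ih ?_
    intro u hu
    rcases mem_Bs.1 hu with h1 | h1
    · exact mem_Bs.2 (Or.inl (hcase u h1))
    · exact htail u h1

/-- The number of the held nodes grows by at most one. -/
theorem card_HR_succ (τ : ℕ) : (HR (sh o (τ + 1)) I).card ≤ (HR (sh o τ) I).card + 1 := by
  classical
  by_cases hcase : ∃ v, v ∈ HR (sh o (τ + 1)) I ∧ v ∉ HR (sh o τ) I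
  · obtain ⟨v, hv, hv'⟩ := hcase
    have huniq : ∀ v', v' ∈ HR (sh o (τ + 1)) I → v' ∉ HR (sh o τ) I →
        ∃ s : G.Slot, G.own s = v' ∧ o τ = Sum.inl (rc I s) := by
      intro v' h1 h2
      obtain ⟨h3, s, hs, hb⟩ := mem_HR.1 h1
      refine ⟨s, hs, blk_new (fun h4 => h2 (mem_HR.2 ⟨h3, s, hs, h4⟩)) hb⟩
    obtain ⟨s, hs, hos⟩ := huniq v hv hv'
    have hsub : HR (sh o (τ + 1)) I ⊆ insert v (HR (sh o τ) I) := by
      intro u hu
      by_cases h2 : u ∈ HR (sh o τ) I
      · exact Finset.mem_insert_of_mem h2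
      · obtain ⟨s', hs', hos'⟩ := huniq u hu h2
        have h3 : s = s' := rc_inj (Sum.inl_injective (hos.symm.trans hos'))
        rw [← hs', ← h3, hs]
        exact Finset.mem_insert_self _ _
    exact (Finset.card_le_card hsub).trans (Finset.card_insert_le _ _)
  · push Not at hcase
    exact (Finset.card_le_card hcase).trans (Nat.le_succ _)

theorem card_HH_le (τ : ℕ) : (HH (sh o τ) I).card ≤ (HR (sh o τ) I).card + 1 := by
  unfold HR
  have h := Finset.pred_card_le_card_erase (s := HH (sh o τ) I) (a := G.root)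
  omega

end

/-- IP-A: at some time exactly `h` nodes other than the root are held. -/
theorem exists_many (o : ℕ → G.Cell A ⊕ A) (I : G.Cell A → A) (d h L : ℕ) (hd2 : 2 ≤ d)
    (hd : ∀ v, Nat.card {e // G.head e = v} ≤ d) (h0 : ∀ s, ¬ Blk o I s) (hL : ∃ a, o L = Sum.inr a)
    (hP : ¬ G.Pebbles ((d - 1) * h + 1)) : ∃ τ ≤ L, (HR (fun m => o (m + τ)) I).card = h := by
  classical
  have hsh0 : sh o 0 = o := by
    funext m
    rfl
  have hH0 : HH (sh o 0) I = ∅ := by
    rw [Finset.eq_empty_iff_forall_notMem]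
    intro v hv
    obtain ⟨s, -, hb⟩ := mem_HH.1 hv
    rw [hsh0] at hb
    exact h0 s hb
  have hR0 : (HR (sh o 0) I).card = 0 := by
    unfold HR
    rw [hH0]
    rfl
  -- it is enough to find many
  have key : (∃ τ ≤ L, h ≤ (HR (sh o τ) I).card) → ∃ τ ≤ L, (HR (sh o τ) I).card = h := by
    intro hex
    set τ := Nat.find hex with hτ
    obtain ⟨h1, h2⟩ := Nat.find_spec hex
    refine ⟨τ, h1, le_antisymm ?_ h2⟩
    rcases hτ' : τ with _ | t
    · rw [hR0]
      exact Nat.zero_le _
    · have h3 : ¬ (t ≤ L ∧ h ≤ (HR (sh o t) I).card) := Nat.find_min hex (by omega)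
      have h4 := card_HR_succ (o := o) (I := I) t
      have h5 : t ≤ L := by omega
      by_contra hc
      exact h3 ⟨h5, by omega⟩
  refine key ?_
  by_contra hcon
  push Not at hcon
  have hB : ∀ τ ≤ L, (Bs o I τ).card + 1 ≤ (d - 1) * h + 1 := by
    intro τ hτ
    have h1 := card_Bs (o := o) (I := I) hd2 hd τ
    have h2 := card_HH_le (o := o) (I := I) τ
    have h3 := hcon τ hτ
    have h4 : (HH (sh o τ) I).card ≤ h := by omega
    exact Nat.succ_le_succ (h1.trans (Nat.mul_le_mul_left _ h4))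
  have hpeb : ∀ τ ≤ L, G.Peb ((d - 1) * h + 1) (Bs o I τ) := by
    intro τ
    induction τ with
    | zero =>
      intro _
      have h1 : Bs o I 0 = ∅ := by
        rw [Finset.eq_empty_iff_forall_notMem]
        intro u hu
        rcases mem_Bs.1 hu with hu | ⟨e, -, -, hb⟩
        · have h2 := Fs_sub hu
          rw [hH0] at h2
          exact absurd h2 (Finset.notMem_empty u)
        · rw [hsh0] at hb
          exact h0 _ hb
      rw [h1]
      exact Dag.Peb.empty
    | succ τ ih => exact fun hτ => peb_step (ih (by omega)) (hB τ (by omega))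
  obtain ⟨a, ha⟩ := hL
  refine hP ⟨_, hpeb L le_rfl, mem_Bs.2 (Or.inl (full_Fs (full_of_out ?_)))⟩
  exact Or.inr ⟨rfl, a, ha⟩

end Pool.Agent.Helper96.IP
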