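import Pool.Agent.Helper91.IP.Defs
import Pool.Agent.Helper91.IP.St.Stubs

/-!
# Project IP, piece D2: the Dirichlet form of the complete graph on the high levels
-/

set_option autoImplicit false

namespace Pool.Agent.Helper96.IP

open Finset Equiv Matrix
open Pool.Agent.Helper91.IP

variable {V : Type} [Fintype V] [DecidableEq V]

private theorem D2_ai (s : Perm V) (p : V) : s (s⁻¹ p) = p :=
  ((Perm.inv_eq_iff_eq (f := s)).1 rfl).symm

private theorem D2_ia (s : Perm V) (p : V) : s⁻¹ (s p) = p :=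
  (Perm.inv_eq_iff_eq (f := s)).2 rfl

private theorem D2_dif (f : Perm V → ℝ) (x y : V) :
    dif f x y = 2 * nsq f - 2 * cor f (swap x y) := by
  have h1 : ∑ s, f (swap x y * s) ^ 2 = ∑ s, f s ^ 2 :=
    Equiv.sum_comp (Equiv.mulLeft (swap x y)) (fun s => f s ^ 2)
  unfold dif nsq cor
  have h2 : ∀ s, (f s - f (swap x y * s)) ^ 2 =
      f s ^ 2 + f (swap x y * s) ^ 2 - 2 * (f s * f (swap x y * s)) := fun s => by ring
  rw [sum_congr rfl fun s _ => h2 s, sum_sub_distrib, sum_add_distrib, h1, ← mul_sum]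
  ring

private theorem D2_Lm (g : Perm V) (f : Perm V → ℝ) : Lm g *ᵥ f = fun s => f (g * s) := by
  funext s
  simp only [mulVec, dotProduct, Lm]
  rw [sum_eq_single (g * s)]
  · simp
  · intro b _ hb
    rw [if_neg hb, zero_mul]
  · intro h
    exact absurd (mem_univ _) h

private theorem D2_inv (Y : Finset V) (f : Perm V → ℝ)
    (h : ∀ x ∈ Y, ∀ y ∈ Y, (fun s => f (swap x y * s)) = f) (g : Perm V)
    (hg : ∀ p, p ∉ Y → g p = p) (s : Perm V) : f (g * s) = f s := by
  have key : ∀ k : Perm {x // x ∈ Y}, ∀ s, f (Perm.ofSubtype k * s) = f s := by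
    intro k
    induction k using Equiv.Perm.swap_induction_on with
    | one => intro s; rw [map_one, one_mul]
    | swap_mul k x y _ ih =>
      intro s
      rw [map_mul, Equiv.Perm.ofSubtype_swap_eq, mul_assoc]
      have h1 := congrFun (h x x.2 y y.2) (Perm.ofSubtype k * s)
      rw [h1]
      exact ih s
  have h1 : ∀ x, g x ∈ Y ↔ x ∈ Y := by
    intro x
    constructor
    · intro hx
      by_contra hcon
      rw [hg x hcon] at hx
      exact hcon hx
    · intro hx
      by_contra hcon
      have h2 := hg (g x) hcon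
      have h3 := g.injective h2
      rw [h3] at hcon
      exact hcon hx
  have h2 : ∀ x, g x ≠ x → x ∈ Y := by
    intro x hx
    by_contra hcon
    exact hx (hg x hcon)
  have h3 := Equiv.Perm.ofSubtype_subtypePerm (p := fun x => x ∈ Y) h1 h2
  rw [← h3]
  exact key _ s

/-- functions invariant under the permutations of the vertices in `Y` have low level. -/
private theorem D2_mem (Y : Finset V) (j : ℕ) (hY : Yᶜ.card ≤ j) (f : Perm V → ℝ)
    (h : ∀ x ∈ Y, ∀ y ∈ Y, (fun s => f (swap x y * s)) = f) : f ∈ Vl V j := by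
  classical
  set ind : Perm V → Perm V → ℝ := fun s₀ s => if ∀ p, p ∉ Y → s (s₀⁻¹ p) = p then 1 else 0
    with hind
  have hmem : ∀ s₀, ind s₀ ∈ Vl V j := by
    intro s₀
    have hc : (Yᶜ.image (s₀⁻¹ : Perm V)).card ≤ j := card_image_le.trans hY
    refine Submodule.mem_iSup_of_mem (p := fun S : {S : Finset V // S.card ≤ j} =>
      Fs (S : Finset V)) ⟨_, hc⟩ ?_
    intro s s' hss
    simp only [hind]
    have h1 : (∀ p, p ∉ Y → s (s₀⁻¹ p) = p) ↔ (∀ p, p ∉ Y → s' (s₀⁻¹ p) = p) := by
      apply forall_congr'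
      intro p
      apply forall_congr'
      intro hp
      rw [hss (s₀⁻¹ p) (mem_image_of_mem _ (mem_compl.2 hp))]
    by_cases h2 : ∀ p, p ∉ Y → s (s₀⁻¹ p) = p
    · rw [if_pos h2, if_pos (h1.1 h2)]
    · rw [if_neg h2, if_neg (fun h' => h2 (h1.2 h'))]
  -- the number of permutations supported in `Y`
  set G : Finset (Perm V) := univ.filter fun g => ∀ p, p ∉ Y → g p = p with hG
  have hG0 : (0 : ℝ) < G.card := by
    have : 0 < G.card := card_pos.2 ⟨1, mem_filter.2 ⟨mem_univ _, fun _ _ => rfl⟩⟩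
    exact_mod_cast this
  have hsum : ∀ s, ∑ s₀, f s₀ * ind s₀ s = G.card * f s := by
    intro s
    have e1 : ∑ s₀, f s₀ * ind s₀ s = ∑ g : Perm V, f (g * s) * ind (g * s) s :=
      (Equiv.sum_comp (Equiv.mulRight s) (fun s₀ => f s₀ * ind s₀ s)).symm
    have e2 : ∀ g : Perm V, f (g * s) * ind (g * s) s = if g ∈ G then f s else 0 := by
      intro g
      have e3 : (∀ p, p ∉ Y → s ((g * s)⁻¹ p) = p) ↔ (∀ p, p ∉ Y → g p = p) := by
        apply forall_congr'
        intro p
        apply forall_congr'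
        intro _
        rw [_root_.mul_inv_rev, Perm.mul_apply, D2_ai]
        constructor
        · intro hh
          nth_rewrite 1 [← hh]
          exact D2_ai g p
        · intro hh
          nth_rewrite 1 [← hh]
          exact D2_ia g p
      by_cases hg : ∀ p, p ∉ Y → g p = p
      · have : ind (g * s) s = 1 := by simp only [hind]; rw [if_pos (e3.2 hg)]
        rw [this, mul_one, if_pos (mem_filter.2 ⟨mem_univ _, hg⟩)]
        exact D2_inv Y f h g hg s
      · have : ind (g * s) s = 0 := by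
          simp only [hind]; rw [if_neg (fun h' => hg (e3.1 h'))]
        rw [this, mul_zero, if_neg (fun h' => hg (mem_filter.1 h').2)]
    rw [e1, sum_congr rfl fun g _ => e2 g, ← sum_filter]
    have e4 : univ.filter (fun g => g ∈ G) = G := by ext g; simp
    rw [e4, sum_const, nsmul_eq_mul]
  have hf : f = ((G.card : ℝ)⁻¹) • ∑ s₀, f s₀ • ind s₀ := by
    funext s
    rw [Pi.smul_apply, Finset.sum_apply, smul_eq_mul]
    simp only [Pi.smul_apply, smul_eq_mul]
    rw [hsum s, ← mul_assoc, inv_mul_cancel₀ hG0.ne', one_mul]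
  rw [hf]
  exact Submodule.smul_mem _ _ (Submodule.sum_mem _ fun s₀ _ => Submodule.smul_mem _ _ (hmem s₀))

/-- IP-D2 (uses D1) -/
theorem complete_energy (j : ℕ) (hj : 1 ≤ j) (hjn : j ≤ Fintype.card V) (f : Perm V → ℝ)
    (ho : Orth f (Vl V (j - 1))) :
    ((j : ℝ) / 2) * nsq f ≤ En (fun _ _ => 1 / (Fintype.card V : ℝ)) f := by
  classical
  have hn0 : 0 < Fintype.card V := lt_of_lt_of_le hj hjn
  have hn0' : (0 : ℝ) < Fintype.card V := by exact_mod_cast hn0
  -- the Jucys-Murphy bound
  have key : ∀ x : V, ∑ y ∈ univ.erase x, cor f (swap x y) ≤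
      (((Fintype.card V - j + 1 : ℕ) : ℝ) - 2) * nsq f := by
    intro x
    refine jucys univ (Oc (Vl V (j - 1))) ?_ (Fintype.card V - j + 1) ?_ x (mem_univ x) f ho
    · intro a _ b _ g hg k hk
      have h1 : ∑ s, g (swap a b * s) * k s = ∑ s, g s * k (swap a b * s) := by
        rw [← Equiv.sum_comp (Equiv.mulLeft (swap a b)) (fun s => g (swap a b * s) * k s)]
        apply sum_congr rfl
        intro s _
        simp only [Equiv.coe_mulLeft]
        rw [← mul_assoc, Equiv.swap_mul_self, one_mul]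
      rw [h1]
      have h2 := Lm_Vl (swap a b) (j - 1) hk
      rw [D2_Lm] at h2
      exact hg _ h2
    · intro Y _ hYc g hg hinv
      have hYc' : Yᶜ.card ≤ j - 1 := by
        rw [card_compl, hYc]; omega
      have h1 := hg g (D2_mem Y (j - 1) hYc' g hinv)
      funext s
      have h2 := (sum_eq_zero_iff_of_nonneg (fun s _ => mul_self_nonneg (g s))).1 h1 s (mem_univ s)
      exact mul_self_eq_zero.1 h2
  have hrow : ∀ x : V, ∑ y, cor f (swap x y) ≤ ((Fintype.card V : ℝ) - j) * nsq f := by
    intro x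
    rw [← add_sum_erase univ _ (mem_univ x)]
    have h1 : cor f (swap x x) = nsq f := by
      unfold cor nsq
      apply sum_congr rfl
      intro s _
      rw [swap_self]
      change f s * f (1 * s) = f s ^ 2
      rw [one_mul]; ring
    have h2 := key x
    have h3 : ((Fintype.card V - j + 1 : ℕ) : ℝ) = (Fintype.card V : ℝ) - j + 1 := by
      push_cast [Nat.cast_sub hjn]; ring
    rw [h3] at h2
    rw [h1]
    linarith
  have hnsq : 0 ≤ nsq f := sum_nonneg fun s _ => sq_nonneg _
  unfold En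
  have e1 : ∀ x y, 1 / (Fintype.card V : ℝ) * dif f x y =
      (2 / (Fintype.card V : ℝ)) * (nsq f - cor f (swap x y)) := by
    intro x y
    rw [D2_dif]; ring
  simp only [e1]
  have e2 : ∑ x : V, ∑ y : V, (2 / (Fintype.card V : ℝ)) * (nsq f - cor f (swap x y)) =
      (2 / (Fintype.card V : ℝ)) * ∑ x : V, (Fintype.card V * nsq f - ∑ y, cor f (swap x y)) := by
    rw [mul_sum]
    apply sum_congr rfl
    intro x _
    rw [← mul_sum, sum_sub_distrib, sum_const, card_univ, nsmul_eq_mul]
  rw [e2]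
  have e3 : ∑ x : V, ((j : ℝ) * nsq f) ≤
      ∑ x : V, (Fintype.card V * nsq f - ∑ y, cor f (swap x y)) := by
    apply sum_le_sum
    intro x _
    have := hrow x
    linarith
  rw [sum_const, card_univ, nsmul_eq_mul] at e3
  have e4 : (2 / (Fintype.card V : ℝ)) * ((Fintype.card V : ℝ) * (j * nsq f)) ≤
      (2 / (Fintype.card V : ℝ)) * ∑ x : V, (Fintype.card V * nsq f - ∑ y, cor f (swap x y)) :=
    mul_le_mul_of_nonneg_left e3 (by positivity)
  have e5 : (2 / (Fintype.card V : ℝ)) * ((Fintype.card V : ℝ) * (j * nsq f)) = 2 * (j * nsq f) := by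
    field_simp
  rw [e5] at e4
  linarith

end Pool.Agent.Helper96.IP
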